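import Pool.Agent.H57.CP.Targets

/-!
# MP_397744_co: module CHP (characteristic equation)
-/

set_option autoImplicit false

namespace Pool.Agent.H95.CP

open Pool.Agent.H57.CP Matrix Polynomial

/-- the matrix of the Minkowski product -/
def J4 : Matrix (Fin 4) (Fin 4) ℝ := Matrix.diagonal ![-1, -1, -1, 1]

theorem J4_mul : J4 * J4 = 1 := by
  rw [J4, Matrix.diagonal_mul_diagonal, ← Matrix.diagonal_one]
  congr 1
  funext i
  fin_cases i <;> simp

theorem gram (A : V4 →ₗ[ℝ] V4) (h : ∀ x y, mk (A x) (A y) = mk x y) :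
    (LinearMap.toMatrix' A)ᵀ * J4 * LinearMap.toMatrix' A = J4 := by
  ext i j
  have h1 := h (Pi.single i 1) (Pi.single j 1)
  have h2 : ∀ k l, LinearMap.toMatrix' A k l = A (Pi.single l 1) k := by
    intro k l
    rw [LinearMap.toMatrix'_apply]
  rw [Matrix.mul_apply]
  simp only [J4, Matrix.mul_diagonal, Matrix.transpose_apply, Fin.sum_univ_four, h2,
    Matrix.diagonal_apply]
  simp only [mk] at h1
  simp only [Matrix.cons_val]
  have h3 : (Pi.single i (1 : ℝ) : V4) 3 * (Pi.single j (1 : ℝ) : V4) 3 -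
      (Pi.single i (1 : ℝ) : V4) 0 * (Pi.single j (1 : ℝ) : V4) 0 -
      (Pi.single i (1 : ℝ) : V4) 1 * (Pi.single j (1 : ℝ) : V4) 1 -
      (Pi.single i (1 : ℝ) : V4) 2 * (Pi.single j (1 : ℝ) : V4) 2 =
      if i = j then (![-1, -1, -1, 1] : Fin 4 → ℝ) i else 0 := by
    fin_cases i <;> fin_cases j <;> simp
  rw [← h3, ← h1]
  ring

theorem chp : T_CHP := by
  intro A hA hdet
  set M := LinearMap.toMatrix' A with hM
  have hg := gram A hA.1
  rw [← hM] at hg
  have hdM : M.det = -1 := by rw [hM, LinearMap.det_toMatrix', hdet]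
  have hinv : M⁻¹ = J4 * Mᵀ * J4 := by
    refine Matrix.inv_eq_left_inv ?_
    calc J4 * Mᵀ * J4 * M = J4 * (Mᵀ * J4 * M) := by simp only [Matrix.mul_assoc]
      _ = 1 := by rw [hg, J4_mul]
  have hcp : M⁻¹.charpoly = M.charpoly := by
    rw [hinv, Matrix.charpoly_mul_comm, ← Matrix.mul_assoc, J4_mul, Matrix.one_mul,
      Matrix.charpoly_transpose]
  have hu : IsUnit M := by
    rw [Matrix.isUnit_iff_isUnit_det, hdM]
    exact isUnit_one.neg
  have hrev : M.charpoly = -M.charpolyRev := by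
    have h1 := Matrix.charpoly_inv M hu
    rw [hcp, hdM] at h1
    rw [h1]
    simp
    ring
  have hnd : M.charpoly.natDegree = 4 := by
    rw [Matrix.charpoly_natDegree_eq_dim]; rfl
  have hmon : M.charpoly.Monic := Matrix.charpoly_monic M
  have hco : ∀ i ≤ 4, M.charpoly.coeff i = -M.charpoly.coeff (4 - i) := by
    intro i hi
    conv_lhs => rw [hrev, ← Matrix.reverse_charpoly]
    rw [coeff_neg, coeff_reverse, hnd, revAt_le hi]
  have hc4 : M.charpoly.coeff 4 = 1 := by
    have := hmon.coeff_natDegree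
    rwa [hnd] at this
  have hc0 : M.charpoly.coeff 0 = -1 := by rw [hco 0 (by norm_num), hc4]
  have hc3 : M.charpoly.coeff 3 = -M.trace := by
    have := Matrix.trace_eq_neg_charpoly_coeff M
    rw [this]
    simp
  have hc1 : M.charpoly.coeff 1 = M.trace := by
    rw [hco 1 (by norm_num)]
    change -M.charpoly.coeff 3 = _
    rw [hc3, neg_neg]
  have hc2 : M.charpoly.coeff 2 = 0 := by
    have h2 := hco 2 (by norm_num)
    change M.charpoly.coeff 2 = -M.charpoly.coeff 2 at h2
    linarith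
  have htr : M.trace = LinearMap.trace ℝ V4 A := by
    rw [hM]
    exact (LinearMap.trace_eq_matrix_trace ℝ (Pi.basisFun ℝ (Fin 4)) A).symm
  have hch : A.charpoly = M.charpoly := by
    rw [hM]
    exact (LinearMap.charpoly_toMatrix A (Pi.basisFun ℝ (Fin 4))).symm
  have hCH := LinearMap.aeval_self_charpoly A
  rw [hch, Polynomial.aeval_eq_sum_range, hnd] at hCH
  simp only [Finset.sum_range_succ, Finset.sum_range_zero, hc0, hc1, hc2, hc3, hc4, htr,
    zero_add, pow_zero, pow_one, zero_smul, add_zero, one_smul, neg_smul] at hCH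
  have : A ^ 4 = -(-1 + LinearMap.trace ℝ V4 A • A + -(LinearMap.trace ℝ V4 A • A ^ 3)) := by
    rw [eq_neg_iff_add_eq_zero, add_comm]
    exact hCH
  rw [this]
  abel

end Pool.Agent.H95.CP
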