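import Pool.Agent.H57.CP.Targets

/-!
# MP_397744_co: module LOR (special Lorentz maps)
-/

set_option autoImplicit false

namespace Pool.Agent.H95.CP

open Pool.Agent.H57.CP

theorem mk_comm (x y : V4) : mk x y = mk y x := by
  simp only [mk]; ring

theorem mk_neg_right (x y : V4) : mk x (-y) = -mk x y := by
  simp only [mk, Pi.neg_apply]; ring

theorem mk_neg_left (x y : V4) : mk (-x) y = -mk x y := by
  simp only [mk, Pi.neg_apply]; ring

/-- Cauchy-Schwarz in the form which is needed -/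
theorem cs3 (y z : V4) (hy : mk y y = 1) (hz : mk z z = 1) :
    (y 0 * z 0 + y 1 * z 1 + y 2 * z 2) ^ 2 < (y 3 * z 3) ^ 2 := by
  simp only [mk] at hy hz
  have h1 : (y 0 * z 0 + y 1 * z 1 + y 2 * z 2) ^ 2 ≤
      (y 0 ^ 2 + y 1 ^ 2 + y 2 ^ 2) * (z 0 ^ 2 + z 1 ^ 2 + z 2 ^ 2) := by
    nlinarith [sq_nonneg (y 0 * z 1 - y 1 * z 0), sq_nonneg (y 0 * z 2 - y 2 * z 0),
      sq_nonneg (y 1 * z 2 - y 2 * z 1)]
  have h2 : y 0 ^ 2 + y 1 ^ 2 + y 2 ^ 2 = y 3 ^ 2 - 1 := by linarith
  have h3 : z 0 ^ 2 + z 1 ^ 2 + z 2 ^ 2 = z 3 ^ 2 - 1 := by linarith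
  have h4 : 1 ≤ y 3 ^ 2 := by nlinarith [sq_nonneg (y 0), sq_nonneg (y 1), sq_nonneg (y 2)]
  have h5 : 1 ≤ z 3 ^ 2 := by nlinarith [sq_nonneg (z 0), sq_nonneg (z 1), sq_nonneg (z 2)]
  rw [h2, h3] at h1
  nlinarith

/-- positivity -/
theorem pos_of (y z : V4) (hy : mk y y = 1) (hz : mk z z = 1) (hz3 : 0 < z 3) (h : 0 < mk y z) :
    0 < y 3 := by
  have hcs := cs3 y z hy hz
  by_contra hn
  push Not at hn
  simp only [mk] at h
  have h1 : y 3 * z 3 ≤ 0 := by nlinarith
  have h2 : 0 ≤ -(y 3 * z 3) := by linarith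
  have h3 : -(y 3 * z 3) < -(y 0 * z 0 + y 1 * z 1 + y 2 * z 2) := by linarith
  nlinarith

theorem mk_pos_of (y z : V4) (hy : mk y y = 1) (hz : mk z z = 1) (hy3 : 0 < y 3) (hz3 : 0 < z 3) :
    0 < mk y z := by
  have hcs := cs3 y z hy hz
  have h1 : 0 < y 3 * z 3 := mul_pos hy3 hz3
  have h2 := abs_lt_of_sq_lt_sq hcs h1.le
  simp only [mk]
  have := (abs_lt.1 h2).2
  linarith

theorem lor : T_LOR := by
  refine ⟨?_, ?_, ?_⟩
  · intro t d hd
    refine ⟨?_, ?_⟩
    · intro x y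
      have h1 := Real.sin_sq_add_cos_sq t
      have h2 : d ^ 2 = 1 := by rcases hd with h | h <;> rw [h] <;> norm_num
      simp only [rot, mk, LinearMap.coe_mk, AddHom.coe_mk, Matrix.cons_val]
      linear_combination (-(x 0 * y 0) - x 1 * y 1) * h1 - x 2 * y 2 * h2
    · intro x
      simp only [rot, LinearMap.coe_mk, AddHom.coe_mk, Matrix.cons_val]
      exact x.2.2
  · intro a b haa hbb hab
    have hval : ∀ x : V4, ∀ i, ht a b x i = -x i + 2 * mk a x * a i - 2 * mk b x * b i := fun x i => rfl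
    have hmk : ∀ x y : V4, mk (ht a b x) (ht a b y) = mk x y := by
      intro x y
      simp only [mk] at haa hbb hab
      simp only [mk, hval]
      linear_combination
        4 * (a 3 * x 3 - a 0 * x 0 - a 1 * x 1 - a 2 * x 2) *
          (a 3 * y 3 - a 0 * y 0 - a 1 * y 1 - a 2 * y 2) * haa +
        4 * (b 3 * x 3 - b 0 * x 0 - b 1 * x 1 - b 2 * x 2) *
          (b 3 * y 3 - b 0 * y 0 - b 1 * y 1 - b 2 * y 2) * hbb -
        4 * ((a 3 * x 3 - a 0 * x 0 - a 1 * x 1 - a 2 * x 2) *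
          (b 3 * y 3 - b 0 * y 0 - b 1 * y 1 - b 2 * y 2) +
          (b 3 * x 3 - b 0 * x 0 - b 1 * x 1 - b 2 * x 2) *
          (a 3 * y 3 - a 0 * y 0 - a 1 * y 1 - a 2 * y 2)) * hab
    have hta : ht a b a = a := by
      ext i
      rw [hval, haa, mk_comm b a, hab]
      ring
    refine ⟨⟨hmk, ?_⟩, ?_⟩
    · intro x
      have hx1 : mk (ht a b x.1) (ht a b x.1) = 1 := by rw [hmk]; exact x.2.1
      have hxa : mk (ht a b x.1) a = mk x.1 a := by
        have h0 := hmk x.1 a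
        rwa [hta] at h0
      have ha3 : a 3 ≠ 0 := by
        intro h0
        simp only [mk, h0] at haa
        nlinarith [sq_nonneg (a 0), sq_nonneg (a 1), sq_nonneg (a 2)]
      rcases lt_or_gt_of_ne ha3 with h | h
      · have hn : mk (-a) (-a) = 1 := by rw [mk_neg_left, mk_neg_right, neg_neg, haa]
        refine pos_of _ (-a) hx1 hn (by simpa using h) ?_
        rw [mk_neg_right, hxa, ← mk_neg_right]
        exact mk_pos_of _ _ x.2.1 hn x.2.2 (by simpa using h)
      · refine pos_of _ a hx1 haa h ?_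
        rw [hxa]
        exact mk_pos_of _ _ x.2.1 haa x.2.2 h
    · apply LinearMap.ext
      intro x
      ext i
      rw [Module.End.mul_apply, Module.End.one_apply]
      simp only [mk] at haa hbb hab
      simp only [hval, mk]
      linear_combination
        4 * (a 3 * x 3 - a 0 * x 0 - a 1 * x 1 - a 2 * x 2) * a i * haa -
        4 * (b 3 * x 3 - b 0 * x 0 - b 1 * x 1 - b 2 * x 2) * a i * hab +
        4 * (b 3 * x 3 - b 0 * x 0 - b 1 * x 1 - b 2 * x 2) * b i * hbb -
        4 * (a 3 * x 3 - a 0 * x 0 - a 1 * x 1 - a 2 * x 2) * b i * hab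
  · intro a haa
    have hval : ∀ x : V4, ∀ i, refl a x i = x i + 2 * mk a x * a i := fun x i => rfl
    have hmk : ∀ x y : V4, mk (refl a x) (refl a y) = mk x y := by
      intro x y
      simp only [mk] at haa
      simp only [mk, hval]
      linear_combination
        4 * (a 3 * x 3 - a 0 * x 0 - a 1 * x 1 - a 2 * x 2) *
          (a 3 * y 3 - a 0 * y 0 - a 1 * y 1 - a 2 * y 2) * haa
    refine ⟨⟨hmk, ?_⟩, ?_⟩
    · intro x
      have hx1 : mk (refl a x.1) (refl a x.1) = 1 := by rw [hmk]; exact x.2.1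
      refine pos_of _ x.1 hx1 x.2.1 x.2.2 ?_
      have h1 := x.2.1
      have h2 : mk (refl a x.1) x.1 = mk x.1 x.1 + 2 * (mk a x.1) ^ 2 := by
        simp only [mk, hval]
        ring
      rw [h2, h1]
      positivity
    · apply LinearMap.ext
      intro x
      ext i
      rw [Module.End.mul_apply, Module.End.one_apply]
      simp only [mk] at haa
      simp only [hval, mk]
      linear_combination
        4 * (a 3 * x 3 - a 0 * x 0 - a 1 * x 1 - a 2 * x 2) * a i * haa

end Pool.Agent.H95.CP
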