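import Pool.Agent.H57.CP.Targets

/-!
# MP_397744_co: module XFF (type {4,4} is excluded)
-/

set_option autoImplicit false

namespace Pool.Agent.H95.CP

open Pool.Agent.H57.CP

theorem ext_mul {A B : V4 →ₗ[ℝ] V4} {g h : Equiv.Perm H3} (hA : Ext A g) (hB : Ext B h) :
    Ext (A * B) (g * h) := by
  intro x
  rw [Module.End.mul_apply, hB x, hA (h x)]
  rfl

theorem ext_one : Ext (1 : V4 →ₗ[ℝ] V4) 1 := fun _ => rfl

theorem ext_pow {A : V4 →ₗ[ℝ] V4} {g : Equiv.Perm H3} (hA : Ext A g) (n : ℕ) :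
    Ext (A ^ n) (g ^ n) := by
  induction n with
  | zero => exact ext_one
  | succ n ih => rw [pow_succ, pow_succ]; exact ext_mul ih hA

theorem ext_inv {A B : V4 →ₗ[ℝ] V4} {g : Equiv.Perm H3} (hA : Ext A g) (hBA : B * A = 1) :
    Ext B g⁻¹ := by
  intro x
  have h1 : A (g⁻¹ x).1 = x.1 := by
    rw [hA (g⁻¹ x)]
    congr 1
    exact g.apply_symm_apply x
  rw [← h1, ← Module.End.mul_apply, hBA]
  rfl

theorem rot_mul (s t d e : ℝ) : rot s d * rot t e = rot (s + t) (d * e) := by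
  apply LinearMap.ext
  intro x
  rw [Module.End.mul_apply]
  ext i
  fin_cases i
  · simp [rot, Real.cos_add, Real.sin_add]; ring
  · simp [rot, Real.cos_add, Real.sin_add]; ring
  · simp [rot]; ring
  · simp [rot]

theorem rot_zero : rot 0 1 = 1 := by
  apply LinearMap.ext
  intro x
  ext i
  fin_cases i <;> simp [rot]

theorem ext_eq_one (h4 : T_SPN) {A : V4 →ₗ[ℝ] V4} {g : Equiv.Perm H3} (hA : Ext A g) (hg : g = 1) :
    A = 1 := by
  refine h4 A 1 fun x => ?_
  rw [hA x, hg]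
  rfl

theorem eq_one_of_ext {A : V4 →ₗ[ℝ] V4} {g : Equiv.Perm H3} (hA : Ext A g) (h : A = 1) : g = 1 := by
  apply Equiv.ext
  intro x
  apply Subtype.ext
  have := hA x
  rw [h] at this
  exact this.symm

theorem xff (h1 : T_DET) (h2 : T_CHP) (h3 : T_LOR) (h4 : T_SPN) : T_XFF := by
  intro S T t a b hn hS hT hS4 hS2 hP4
  -- the angle
  have hB2 : rot t (-1) ^ 2 = rot (2 * t) 1 := by
    rw [pow_two, rot_mul]
    congr 1 <;> ring
  have hB4 : rot t (-1) ^ 4 = rot (4 * t) 1 := by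
    have : rot t (-1) ^ 4 = (rot t (-1) ^ 2) * (rot t (-1) ^ 2) := by rw [← pow_add]
    rw [this, hB2, rot_mul]
    congr 1 <;> ring
  have hone : rot (4 * t) 1 = 1 := by
    rw [← hB4]
    exact ext_eq_one h4 (ext_pow hS 4) hS4
  have hcos4 : Real.cos (4 * t) = 1 := by
    have := congrFun (congrArg (fun f : V4 →ₗ[ℝ] V4 => f (Pi.single 0 1)) hone) 0
    simpa [rot] using this
  have hcos2 : Real.cos (2 * t) = -1 := by
    have h5 : Real.cos (4 * t) = 2 * Real.cos (2 * t) ^ 2 - 1 := by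
      rw [← Real.cos_two_mul]; congr 1; ring
    have h6 : Real.cos (2 * t) ^ 2 = 1 := by linarith
    have h7 := Real.sin_sq_add_cos_sq (2 * t)
    have h8 : Real.sin (2 * t) = 0 := by
      have : Real.sin (2 * t) ^ 2 = 0 := by linarith
      exact pow_eq_zero_iff (two_ne_zero) |>.1 this
    rcases (by have h9 : (Real.cos (2 * t) - 1) * (Real.cos (2 * t) + 1) = 0 := by linarith
               rcases mul_eq_zero.1 h9 with h | h
               · exact Or.inl (by linarith)
               · exact Or.inr (by linarith) : Real.cos (2 * t) = 1 ∨ Real.cos (2 * t) = -1) with h | h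
    · exfalso
      apply hS2
      refine eq_one_of_ext (ext_pow hS 2) ?_
      rw [hB2]
      apply LinearMap.ext
      intro x
      ext i
      fin_cases i <;> simp [rot, h, h8]
    · exact h
  have hc : Real.cos t = 0 := by
    have h5 : Real.cos (2 * t) = 2 * Real.cos t ^ 2 - 1 := Real.cos_two_mul t
    have : Real.cos t ^ 2 = 0 := by linarith
    exact pow_eq_zero_iff (two_ne_zero) |>.1 this
  -- the product
  have hinv : rot (-t) (-1) * rot t (-1) = 1 := by
    rw [rot_mul, ← rot_zero]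
    congr 1 <;> ring
  have hM : Ext (ht a b * rot (-t) (-1)) (T * S⁻¹) := ext_mul hT (ext_inv hS hinv)
  set M := ht a b * rot (-t) (-1) with hMdef
  obtain ⟨hrot, hht⟩ := h1
  obtain ⟨hdet, htr⟩ := hht a b hn.aa hn.bb hn.ab
  have hLor : Lor M := by
    have hl1 := (h3.2.1 a b hn.aa hn.bb hn.ab).1
    have hl2 := h3.1 (-t) (-1) (Or.inr rfl)
    refine ⟨fun x y => ?_, fun x => ?_⟩
    · rw [hMdef, Module.End.mul_apply, Module.End.mul_apply, hl1.1, hl2.1]
    · have h5 : mk (rot (-t) (-1) x.1) (rot (-t) (-1) x.1) = 1 := by rw [hl2.1]; exact x.2.1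
      exact hl1.2 ⟨_, h5, hl2.2 x⟩
  have hdM : LinearMap.det M = -1 := by
    rw [hMdef, map_mul, hdet, (hrot (-t) (-1)).1, one_mul]
  set τ := LinearMap.trace ℝ V4 M with hτ
  have hτval : τ = 2 * (a 3 ^ 2 + a 2 ^ 2 - b 2 ^ 2) := by
    rw [hτ, hMdef, htr, (hrot (-t) (-1)).2, Real.cos_neg, hc]
    simp only [mk, rot, LinearMap.coe_mk, AddHom.coe_mk, Matrix.cons_val, Real.cos_neg,
      Real.sin_neg, hc, hn.a1, hn.b3]
    ring
  have hτpos : 0 < τ := by
    have h5 := hn.aa
    have h6 := hn.bb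
    simp only [mk, hn.b3, hn.a1] at h5 h6
    have h7 : 0 < b 1 ^ 2 := by
      have := hn.b1
      positivity
    rw [hτval]
    nlinarith [sq_nonneg (a 0), sq_nonneg (a 2), sq_nonneg (b 0)]
  have hCH := h2 M hLor hdM
  rw [← hτ] at hCH
  have hM4 : M ^ 4 = 1 := ext_eq_one h4 (ext_pow hM 4) hP4
  have hM3 : M ^ 3 = M := by
    rw [hM4] at hCH
    have h5 : τ • (M ^ 3 - M) = 0 := by
      rw [smul_sub]
      have : τ • M ^ 3 - τ • M + 1 = 1 := hCH.symm
      simpa using this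
    rcases smul_eq_zero.1 h5 with h | h
    · exact absurd h hτpos.ne'
    · exact sub_eq_zero.1 h
  have hM2 : M ^ 2 = 1 := by
    calc M ^ 2 = M * M := pow_two M
      _ = M ^ 3 * M := by rw [hM3]
      _ = M ^ 4 := (pow_succ M 3).symm
      _ = 1 := hM4
  exact eq_one_of_ext (ext_pow hM 2) hM2

end Pool.Agent.H95.CP
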